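import Pool.Agent.Helper20.MH.Goals

/-!
# Packet MH-LSS: the parallel machines of a family of systems are computed in linear space
-/

namespace Pool.Agent.Helper46.MH

open Pool.Agent.Helper65.LinSpace Pool.Agent.Helper20.MH Finset
open Pool.Agent.Helper65.RT (LSM)

variable {α β : Type} [Ctx α] [Ctx β]

theorem LS_dig2 {f R i : α → ℕ} (hf : LS f) (hR : LS R) (hi : LS i) :
    LS (fun z => dig (2 ^ f z) (R z) (i z)) := by
  refine LS.congr (LS.modPow (q := fun _ => 2) (i := f) (LS.const 2)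
    (LS.divPow (q := fun _ => 2) (i := fun z => f z * i z) (LS.const 2) hR (LS.mul hf hi)) hf)
    fun z => ?_
  unfold dig
  rw [pow_mul]

theorem LS_div2 {f R : α → ℕ} (hf : LS f) (hR : LS R) : LS (fun z => R z / 2 ^ f z) :=
  LS.divPow (q := fun _ => 2) (i := f) (LS.const 2) hR hf

theorem LS_mod2 {f R : α → ℕ} (hf : LS f) (hR : LS R) : LS (fun z => R z % 2 ^ f z) :=
  LS.modPow (q := fun _ => 2) (i := f) (LS.const 2) hR hf

theorem LS_tab2 {τ K C : α → ℕ} {d : α → ℕ → ℕ} (hd : LS (fun p : α × ℕ => d p.1 p.2))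
    (hτ : LS τ) (hK : LS K) (hC : LS C) (hd' : ∀ z, ∀ i < K z, d z i < 2 ^ τ z)
    (hb : ∀ z, 2 ^ (K z * τ z) ≤ C z) : LS (fun z => tab (2 ^ τ z) (K z) (d z)) := by
  have hcp : ∀ z, K z ≠ 0 → capPow 2 (τ z) (C z) = 2 ^ τ z := by
    intro z hz
    unfold capPow
    refine min_eq_left ?_
    have h1 : 2 ^ τ z ≤ 2 ^ (K z * τ z) :=
      Nat.pow_le_pow_right (by norm_num) (Nat.le_mul_of_pos_left _ (Nat.pos_of_ne_zero hz))
    exact (h1.trans (hb z)).trans (Nat.le_succ _)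
  refine LS.congr (LS.tab (q := fun z => capPow 2 (τ z) (C z)) (m := K) (C := C) hd
    (LS.capPow (LS.const 2) hτ hC) hK hC ?_ ?_) ?_
  · intro z i hi
    rw [hcp z (by omega)]
    exact hd' z i hi
  · intro z
    by_cases hz : K z = 0
    · rw [hz, pow_zero]
      exact (Nat.one_le_two_pow).trans (hb z)
    · show capPow 2 (τ z) (C z) ^ K z ≤ C z
      rw [hcp z hz, ← pow_mul, mul_comm]
      exact hb z
  · intro z
    by_cases hz : K z = 0
    · simp only [hz]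
      rw [tab_zero, tab_zero]
    · rw [hcp z hz]

theorem nrec_congr {g : ℕ} {k k' : ℕ → ℕ → ℕ} {n : ℕ} (h : ∀ i < n, ∀ r, k i r = k' i r) :
    nrec g k n = nrec g k' n := by
  induction n with
  | zero => rfl
  | succ n ih =>
    rw [nrec_succ, nrec_succ, ih fun i hi r => h i (by omega) r, h n (by omega)]

theorem ifz_eq (c x y : ℕ) : ifz c x y = if c = 0 then x else y := rfl

/-! ### Bounds -/

section bounds

variable {s : Sys} (hs : s.Ok)
include hs

theorem uz_lt (Z t : ℕ) : s.uz Z t < 2 ^ s.sg := by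
  unfold Sys.uz
  cases t with
  | zero => exact Nat.mod_lt _ (by positivity)
  | succ t => exact hs.hN _ _

theorem wr_part (u v z r : ℕ) (n : ℕ) : nrec r (fun i r => ifz (eq01 (s.cell u i) z) r
    (s.W u v i)) n ≤ max r (2 ^ s.τ) := by
  induction n with
  | zero => exact le_max_left _ _
  | succ n ih =>
    rw [nrec_succ, ifz_eq]
    split_ifs
    · exact ih
    · exact ((hs.hW _ _ _).le).trans (le_max_right _ _)

theorem wr_le (u v z r : ℕ) : s.wr u v z r ≤ max r (2 ^ s.τ) := wr_part hs u v z r s.K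

theorem wr_lt {u v z r : ℕ} (hr : r < 2 ^ s.τ) : s.wr u v z r < 2 ^ s.τ := by
  unfold Sys.wr
  induction s.K with
  | zero => exact hr
  | succ n ih =>
    rw [nrec_succ, ifz_eq]
    split_ifs
    · exact ih
    · exact hs.hW _ _ _

theorem ov_lt {Z t z r : ℕ} (hr : r < 2 ^ s.τ) : s.ov Z t z r < 2 ^ s.τ := by
  unfold Sys.ov
  induction t with
  | zero => exact hr
  | succ n ih =>
    rw [nrec_succ]
    exact wr_lt hs ih

omit hs in
theorem old_part (x v z : ℕ) (n : ℕ) : nrec 0 (fun j r => ifz (eq01 (s.nb x j) z) r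
    (dig (2 ^ s.τ) (v / 2 ^ s.sg) j)) n < 2 ^ s.τ := by
  induction n with
  | zero =>
    rw [nrec_zero]
    positivity
  | succ n ih =>
    rw [nrec_succ, ifz_eq]
    split_ifs
    · exact ih
    · exact dig_lt (by positivity) _ _

omit hs in
theorem old_lt (x v z : ℕ) : s.old x v z < 2 ^ s.τ := old_part x v z s.J

theorem rs_lt (e Z v w t : ℕ) : s.rs e Z v w t < 2 ^ (s.K * s.τ) := by
  unfold Sys.rs
  rw [mul_comm s.K s.τ, pow_mul]
  exact tab_lt fun i _ => ov_lt hs (old_lt _ _ _)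

theorem blk_part (e Z v n : ℕ) : nrec 0 (fun t w => w + 2 ^ (s.K * s.τ * t) * s.rs e Z v w t) n <
    2 ^ (s.K * s.τ * n) := by
  induction n with
  | zero =>
    rw [nrec_zero]
    positivity
  | succ n ih =>
    rw [nrec_succ]
    generalize nrec 0 (fun t w => w + 2 ^ (s.K * s.τ * t) * s.rs e Z v w t) n = w at ih ⊢
    have h1 := rs_lt hs e Z v w n
    generalize s.rs e Z v w n = v at h1 ⊢
    rw [mul_add, pow_add, mul_one]
    generalize 2 ^ (s.K * s.τ * n) = u at ih ⊢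
    calc w + u * v < u + u * v := by omega
      _ = u * (v + 1) := by ring
      _ ≤ u * 2 ^ (s.K * s.τ) := Nat.mul_le_mul_left _ h1

omit hs in
theorem pc_lt (Z j : ℕ) : s.pc Z j < 2 ^ s.τ := dig_lt (by positivity) _ _

omit hs in
theorem b_eq : 2 ^ s.b = 2 ^ s.sg * (2 ^ s.τ) ^ s.J := by
  unfold Sys.b
  rw [pow_add, mul_comm s.J, pow_mul]

omit hs in
theorem add_lt {u v m n : ℕ} (hu : u < m) (hv : v < n) : u + m * v < m * n := by
  calc u + m * v < m + m * v := by omega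
    _ = m * (v + 1) := by ring
    _ ≤ m * n := Nat.mul_le_mul_left _ hv

theorem fo_lt (x Z : ℕ) : s.fo x Z < 2 ^ s.b := by
  unfold Sys.fo
  rw [b_eq]
  exact add_lt (uz_lt hs _ _) (tab_lt fun j _ => ov_lt hs (pc_lt _ _))

theorem f0_lt : s.f0 < 2 ^ s.b := by
  unfold Sys.f0
  rw [b_eq]
  exact add_lt hs.hu0 (tab_lt fun j _ => hs.hM0)

theorem fq_lt (x e Z : ℕ) : s.fq x e Z < 2 ^ s.σ := by
  unfold Sys.fq
  rw [ifz_eq, ifz_eq]
  split_ifs
  · exact Nat.mod_lt _ (by positivity)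
  · exact Nat.mod_lt _ (by positivity)
  · exact hs.hB _

omit hs in
theorem fg_lt (x e Z v : ℕ) : s.fg x e Z v < 2 ^ s.a := Nat.mod_lt _ (by positivity)

theorem machOk {E G d : ℕ} (hE : 0 < E) (hG : 0 < G) : (s.mach E G d).Ok where
  hσ := hs.hσ
  ha := Nat.add_pos_left hs.hsg _
  hb := Nat.add_pos_left hs.hsg _
  hE := hE
  hG := hG
  hq := fun x i Z => fq_lt hs x i Z
  hg := fun x i Z v => fg_lt x i Z v
  ho := fun x Z => fo_lt hs x Z
  ht0 := fun _ => f0_lt hs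
  hroot := by
    show 0 < 2 ^ s.σ
    positivity

omit hs in
theorem sg_le_a : s.sg ≤ s.a := Nat.le_add_right _ _

theorem Kτ_le_a : s.K * s.τ ≤ s.a := by
  have h1 : s.K * s.τ ≤ s.c * (s.K * s.τ) := Nat.le_mul_of_pos_left _ hs.hc
  unfold Sys.a
  omega

omit hs in
theorem cKτ_le_a : s.K * s.τ * s.c ≤ s.a := by
  unfold Sys.a
  rw [mul_comm]
  exact Nat.le_add_left _ _

omit hs in
theorem a_le : s.a ≤ s.a * (s.R + 2) := Nat.le_mul_of_pos_right _ (by omega)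

end bounds

/-! ### Linear space -/

namespace SLS

variable {s : α → Sys} {C : α → ℕ}

theorem comp (h : SLS s C) {π : β → α} (hπ : LS π) : SLS (fun b => s (π b)) (fun b => C (π b)) where
  sg := LS.comp (g := fun z => (s z).sg) h.sg hπ
  τ := LS.comp (g := fun z => (s z).τ) h.τ hπ
  K := LS.comp (g := fun z => (s z).K) h.K hπ
  J := LS.comp (g := fun z => (s z).J) h.J hπ
  σ := LS.comp (g := fun z => (s z).σ) h.σ hπ
  c := LS.comp (g := fun z => (s z).c) h.c hπ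
  R := LS.comp (g := fun z => (s z).R) h.R hπ
  u0 := LS.comp (g := fun z => (s z).u0) h.u0 hπ
  M0 := LS.comp (g := fun z => (s z).M0) h.M0 hπ
  cell := LS.comp (g := fun z : α × ℕ × ℕ => (s z.1).cell z.2.1 z.2.2)
    (f := fun z : β × ℕ × ℕ => (π z.1, z.2)) h.cell (LS.prodMk (LS.comp hπ LS.fst) LS.snd)
  N := LS.comp (g := fun z : α × ℕ × ℕ => (s z.1).N z.2.1 z.2.2)
    (f := fun z : β × ℕ × ℕ => (π z.1, z.2)) h.N (LS.prodMk (LS.comp hπ LS.fst) LS.snd)
  W := LS.comp (g := fun z : α × ℕ × ℕ × ℕ => (s z.1).W z.2.1 z.2.2.1 z.2.2.2)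
    (f := fun z : β × ℕ × ℕ × ℕ => (π z.1, z.2)) h.W (LS.prodMk (LS.comp hπ LS.fst) LS.snd)
  B := LS.comp (g := fun z : α × ℕ => (s z.1).B z.2)
    (f := fun z : β × ℕ => (π z.1, z.2)) h.B (LS.prodMk (LS.comp hπ LS.fst) LS.snd)
  nb := LS.comp (g := fun z : α × ℕ × ℕ => (s z.1).nb z.2.1 z.2.2)
    (f := fun z : β × ℕ × ℕ => (π z.1, z.2)) h.nb (LS.prodMk (LS.comp hπ LS.fst) LS.snd)
  bd := LS.comp (g := C) h.bd hπ
  ok := fun z => h.ok (π z)
  hC1 := fun z => h.hC1 (π z)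
  hC2 := fun z => h.hC2 (π z)
  hC3 := fun z => h.hC3 (π z)

variable (h : SLS s C)
include h

theorem la : LS (fun z => (s z).a) := LS.add h.sg (LS.mul h.c (LS.mul h.K h.τ))

theorem lb : LS (fun z => (s z).b) := LS.add h.sg (LS.mul h.J h.τ)

theorem pow_le {z : α} {n : ℕ} (hn : n ≤ (s z).a * ((s z).R + 2)) : 2 ^ n ≤ C z :=
  (Nat.pow_le_pow_right (by norm_num) hn).trans (h.hC1 z)

theorem pow_le' {z : α} {n : ℕ} (hn : n ≤ (s z).a) : 2 ^ n ≤ C z := pow_le h (hn.trans a_le)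

theorem psg : LS (fun z => 2 ^ (s z).sg) :=
  LS.pow_of_le (f := fun _ => 2) (LS.const 2) h.sg h.bd fun z => pow_le' h sg_le_a

variable {u v z' r x e Z t i w : α → ℕ}

theorem lcell (hu : LS u) (hi : LS i) : LS (fun z => (s z).cell (u z) (i z)) :=
  LS.comp (g := fun z : α × ℕ × ℕ => (s z.1).cell z.2.1 z.2.2) (f := fun z => (z, u z, i z)) h.cell
    (LS.prodMk LS.id (LS.prodMk hu hi))

theorem lN (hu : LS u) (hv : LS v) : LS (fun z => (s z).N (u z) (v z)) :=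
  LS.comp (g := fun z : α × ℕ × ℕ => (s z.1).N z.2.1 z.2.2) (f := fun z => (z, u z, v z)) h.N
    (LS.prodMk LS.id (LS.prodMk hu hv))

theorem lW (hu : LS u) (hv : LS v) (hi : LS i) : LS (fun z => (s z).W (u z) (v z) (i z)) :=
  LS.comp (g := fun z : α × ℕ × ℕ × ℕ => (s z.1).W z.2.1 z.2.2.1 z.2.2.2)
    (f := fun z => (z, u z, v z, i z)) h.W (LS.prodMk LS.id (LS.prodMk hu (LS.prodMk hv hi)))

theorem lB (hu : LS u) : LS (fun z => (s z).B (u z)) :=
  LS.comp (g := fun z : α × ℕ => (s z.1).B z.2) (f := fun z => (z, u z)) h.B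
    (LS.prodMk LS.id hu)

theorem lnb (hx : LS x) (hi : LS i) : LS (fun z => (s z).nb (x z) (i z)) :=
  LS.comp (g := fun z : α × ℕ × ℕ => (s z.1).nb z.2.1 z.2.2) (f := fun z => (z, x z, i z)) h.nb
    (LS.prodMk LS.id (LS.prodMk hx hi))

theorem vn (hZ : LS Z) (ht : LS t) : LS (fun z => (s z).vn (Z z) (t z)) :=
  LS_dig2 (LS.mul h.K h.τ) (LS_dig2 (la h) hZ (LS.add (LS.const 1) (LS.div ht h.c)))
    (LS.mod ht h.c)

theorem uz (hZ : LS Z) (ht : LS t) : LS (fun z => (s z).uz (Z z) (t z)) := by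
  have hc := comp h (π := fun p : α × ℕ × ℕ => p.1) LS.fst
  have h1 : LS (fun p : α × ℕ × ℕ => (s p.1).N p.2.2 ((s p.1).vn (Z p.1) p.2.1)) :=
    lN hc (LS.comp (g := fun p : ℕ × ℕ => p.2) LS.snd LS.snd)
      (vn hc (LS.comp (g := Z) hZ LS.fst) (LS.comp (g := fun p : ℕ × ℕ => p.1) LS.fst LS.snd))
  exact LS.nrec (G := fun z => dig (2 ^ (s z).a) (Z z) 0 % 2 ^ (s z).sg) (N := t)
    (K := fun z t u => (s z).N u ((s z).vn (Z z) t)) (C := fun z => 2 ^ (s z).sg)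
    (LS_mod2 h.sg (LS_dig2 (la h) hZ (LS.const 0))) ht (psg h) h1
    (fun z i _ => (uz_lt (h.ok z) (Z z) i).le)

theorem capτ (z : α) (hK : (s z).K ≠ 0) : capPow 2 (s z).τ (C z) = 2 ^ (s z).τ := by
  have h1 : (s z).τ ≤ (s z).K * (s z).τ := Nat.le_mul_of_pos_left _ (Nat.pos_of_ne_zero hK)
  exact min_eq_left ((pow_le' h (h1.trans (Kτ_le_a (h.ok z)))).trans (Nat.le_succ _))

theorem wr (hu : LS u) (hv : LS v) (hz : LS z') (hr : LS r) :
    LS (fun z => (s z).wr (u z) (v z) (z' z) (r z)) := by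
  have hc := comp h (π := fun p : α × ℕ × ℕ => p.1) LS.fst
  have hu1 : LS (fun p : α × ℕ × ℕ => u p.1) := LS.comp (g := u) hu LS.fst
  have hv1 : LS (fun p : α × ℕ × ℕ => v p.1) := LS.comp (g := v) hv LS.fst
  have hz1 : LS (fun p : α × ℕ × ℕ => z' p.1) := LS.comp (g := z') hz LS.fst
  have hi1 : LS (fun p : α × ℕ × ℕ => p.2.1) := LS.comp (g := fun p : ℕ × ℕ => p.1) LS.fst LS.snd
  have hr1 : LS (fun p : α × ℕ × ℕ => p.2.2) := LS.comp (g := fun p : ℕ × ℕ => p.2) LS.snd LS.snd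
  have h1 : LS (fun p : α × ℕ × ℕ => ifz (eq01 ((s p.1).cell (u p.1) p.2.1) (z' p.1)) p.2.2
      ((s p.1).W (u p.1) (v p.1) p.2.1)) :=
    LS.ifz (LS.eq01 (lcell hc hu1 hi1) hz1) hr1 (lW hc hu1 hv1 hi1)
  refine LS.nrec (G := r) (N := fun z => (s z).K)
    (K := fun z i r => ifz (eq01 ((s z).cell (u z) i) (z' z)) r ((s z).W (u z) (v z) i))
    (C := fun z => r z + capPow 2 (s z).τ (C z)) hr h.K
    (LS.add hr (LS.capPow (LS.const 2) h.τ h.bd)) h1 ?_
  intro z i hi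
  by_cases hK : (s z).K = 0
  · have h2 : i = 0 := by omega
    subst h2
    exact Nat.le_add_right _ _
  · rw [capτ h z hK]
    exact (wr_part (h.ok z) _ _ _ _ _).trans (max_le (Nat.le_add_right _ _) (Nat.le_add_left _ _))

omit h [Ctx α] in
theorem ov_part (hok : ∀ z, (s z).Ok) (z : α) (Z z1 r n : ℕ) : nrec r (fun t r => (s z).wr ((s z).uz Z t)
    ((s z).vn Z t) z1 r) n ≤ max r (2 ^ (s z).τ) ∧ ((s z).K = 0 → nrec r (fun t r =>
      (s z).wr ((s z).uz Z t) ((s z).vn Z t) z1 r) n = r) := by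
  induction n with
  | zero => exact ⟨le_max_left _ _, fun _ => rfl⟩
  | succ n ih =>
    rw [nrec_succ]
    constructor
    · refine (wr_le (hok z) _ _ _ _).trans (max_le ih.1 (le_max_right _ _))
    · intro hK
      have h1 : ∀ u v z1 r, (s z).wr u v z1 r = r := by
        intro u v z1 r
        unfold Sys.wr
        rw [hK]
        rfl
      rw [h1]
      exact ih.2 hK

theorem ov (hZ : LS Z) (ht : LS t) (hz : LS z') (hr : LS r) :
    LS (fun z => (s z).ov (Z z) (t z) (z' z) (r z)) := by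
  have hc := comp h (π := fun p : α × ℕ × ℕ => p.1) LS.fst
  have hZ1 : LS (fun p : α × ℕ × ℕ => Z p.1) := LS.comp (g := Z) hZ LS.fst
  have hz1 : LS (fun p : α × ℕ × ℕ => z' p.1) := LS.comp (g := z') hz LS.fst
  have hi1 : LS (fun p : α × ℕ × ℕ => p.2.1) := LS.comp (g := fun p : ℕ × ℕ => p.1) LS.fst LS.snd
  have hr1 : LS (fun p : α × ℕ × ℕ => p.2.2) := LS.comp (g := fun p : ℕ × ℕ => p.2) LS.snd LS.snd
  have h1 : LS (fun p : α × ℕ × ℕ => (s p.1).wr ((s p.1).uz (Z p.1) p.2.1)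
      ((s p.1).vn (Z p.1) p.2.1) (z' p.1) p.2.2) :=
    wr hc (uz hc hZ1 hi1) (vn hc hZ1 hi1) hz1 hr1
  refine LS.nrec (G := r) (N := t)
    (K := fun z t r => (s z).wr ((s z).uz (Z z) t) ((s z).vn (Z z) t) (z' z) r)
    (C := fun z => r z + capPow 2 (s z).τ (C z)) hr ht
    (LS.add hr (LS.capPow (LS.const 2) h.τ h.bd)) h1 ?_
  intro z i _
  have h2 := ov_part h.ok z (Z z) (z' z) (r z) i
  by_cases hK : (s z).K = 0
  · rw [h2.2 hK]
    exact Nat.le_add_right _ _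
  · rw [capτ h z hK]
    exact h2.1.trans (max_le (Nat.le_add_right _ _) (Nat.le_add_left _ _))

theorem old (hx : LS x) (hv : LS v) (hz : LS z') :
    LS (fun z => (s z).old (x z) (v z) (z' z)) := by
  have hc := comp h (π := fun p : α × ℕ × ℕ => p.1) LS.fst
  have hx1 : LS (fun p : α × ℕ × ℕ => x p.1) := LS.comp (g := x) hx LS.fst
  have hv1 : LS (fun p : α × ℕ × ℕ => v p.1) := LS.comp (g := v) hv LS.fst
  have hz1 : LS (fun p : α × ℕ × ℕ => z' p.1) := LS.comp (g := z') hz LS.fst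
  have hi1 : LS (fun p : α × ℕ × ℕ => p.2.1) := LS.comp (g := fun p : ℕ × ℕ => p.1) LS.fst LS.snd
  have hr1 : LS (fun p : α × ℕ × ℕ => p.2.2) := LS.comp (g := fun p : ℕ × ℕ => p.2) LS.snd LS.snd
  have h1 : LS (fun p : α × ℕ × ℕ => ifz (eq01 ((s p.1).nb (x p.1) p.2.1) (z' p.1)) p.2.2
      (dig (2 ^ (s p.1).τ) (v p.1 / 2 ^ (s p.1).sg) p.2.1)) :=
    LS.ifz (LS.eq01 (lnb hc hx1 hi1) hz1) hr1 (LS_dig2 hc.τ (LS_div2 hc.sg hv1) hi1)
  refine LS.nrec (G := fun _ => 0) (N := fun z => (s z).J)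
    (K := fun z j r => ifz (eq01 ((s z).nb (x z) j) (z' z)) r
      (dig (2 ^ (s z).τ) (v z / 2 ^ (s z).sg) j))
    (C := fun z => C z) (LS.const 0) h.J h.bd h1 ?_
  intro z i hi
  by_cases hJ : i = 0
  · subst hJ
    exact Nat.zero_le _
  · have h2 : (s z).τ ≤ (s z).J * (s z).τ := Nat.le_mul_of_pos_left _ (by omega)
    have h3 : (s z).τ ≤ (s z).b := h2.trans (Nat.le_add_left _ _)
    exact (old_part (s := s z) _ _ _ i).le.trans
      ((Nat.pow_le_pow_right (by norm_num) h3).trans (h.hC2 z))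

theorem ext (he : LS e) (hZ : LS Z) (hw : LS w) : LS (fun z => (s z).ext (e z) (Z z) (w z)) := by
  have h1 : LS (fun z => 2 ^ ((s z).a * min (e z) ((s z).R + 1))) := by
    refine LS.pow_of_le (f := fun _ => 2) (LS.const 2)
      (LS.mul (la h) (LS.min he (LS.add h.R (LS.const 1)))) h.bd fun z => pow_le h ?_
    refine Nat.mul_le_mul_left _ ?_
    have := min_le_right (e z) ((s z).R + 1)
    omega
  exact LS.add hZ (LS.mul h1 hw)

theorem rs (he : LS e) (hZ : LS Z) (hv : LS v) (hw : LS w) (ht : LS t) :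
    LS (fun z => (s z).rs (e z) (Z z) (v z) (w z) (t z)) := by
  have hc := comp h (π := fun p : α × ℕ => p.1) LS.fst
  have he1 : LS (fun p : α × ℕ => e p.1) := LS.comp (g := e) he LS.fst
  have hZ1 : LS (fun p : α × ℕ => Z p.1) := LS.comp (g := Z) hZ LS.fst
  have hv1 : LS (fun p : α × ℕ => v p.1) := LS.comp (g := v) hv LS.fst
  have hw1 : LS (fun p : α × ℕ => w p.1) := LS.comp (g := w) hw LS.fst
  have ht1 : LS (fun p : α × ℕ => t p.1) := LS.comp (g := t) ht LS.fst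
  have hi1 : LS (fun p : α × ℕ => p.2) := LS.snd
  have hx1 := ext hc he1 hZ1 hw1
  have hT0 : LS (fun p : α × ℕ => (e p.1 - 1) * (s p.1).c) :=
    LS.mul (LS.sub he1 (LS.const 1)) hc.c
  have hT : LS (fun p : α × ℕ => (e p.1 - 1) * (s p.1).c + t p.1) := LS.add hT0 ht1
  have hcl := lcell hc (uz hc hx1 hT) hi1
  exact LS_tab2 (τ := fun z => (s z).τ) (K := fun z => (s z).K) (C := C)
    (d := fun z i => (s z).ov ((s z).ext (e z) (Z z) (w z)) ((e z - 1) * (s z).c + t z)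
      ((s z).cell ((s z).uz ((s z).ext (e z) (Z z) (w z)) ((e z - 1) * (s z).c + t z)) i)
      ((s z).old ((s z).B ((s z).uz (Z z) ((e z - 1) * (s z).c))) (v z)
        ((s z).cell ((s z).uz ((s z).ext (e z) (Z z) (w z)) ((e z - 1) * (s z).c + t z)) i)))
    (ov hc hx1 hT hcl (old hc (lB hc (uz hc hZ1 hT0)) hv1 hcl)) h.τ h.K h.bd
    (fun z i _ => ov_lt (h.ok z) (old_lt _ _ _))
    (fun z => pow_le' h (Kτ_le_a (h.ok z)))

theorem blk (he : LS e) (hZ : LS Z) (hv : LS v) : LS (fun z => (s z).blk (e z) (Z z) (v z)) := by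
  have hc := comp h (π := fun p : α × ℕ × ℕ => p.1) LS.fst
  have he1 : LS (fun p : α × ℕ × ℕ => e p.1) := LS.comp (g := e) he LS.fst
  have hZ1 : LS (fun p : α × ℕ × ℕ => Z p.1) := LS.comp (g := Z) hZ LS.fst
  have hv1 : LS (fun p : α × ℕ × ℕ => v p.1) := LS.comp (g := v) hv LS.fst
  have hi1 : LS (fun p : α × ℕ × ℕ => p.2.1) := LS.comp (g := fun p : ℕ × ℕ => p.1) LS.fst LS.snd
  have hr1 : LS (fun p : α × ℕ × ℕ => p.2.2) := LS.comp (g := fun p : ℕ × ℕ => p.2) LS.snd LS.snd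
  have h1 : LS (fun p : α × ℕ × ℕ => p.2.2 + capPow 2 ((s p.1).K * (s p.1).τ * p.2.1) (C p.1) *
      (s p.1).rs (e p.1) (Z p.1) (v p.1) p.2.2 p.2.1) :=
    LS.add hr1 (LS.mul (LS.capPow (LS.const 2) (LS.mul (LS.mul hc.K hc.τ) hi1) hc.bd)
      (rs hc he1 hZ1 hv1 hr1 hi1))
  have hcap : ∀ z, ∀ i ≤ (s z).c, 2 ^ ((s z).K * (s z).τ * i) ≤ C z := by
    intro z i hi
    exact pow_le' h ((Nat.mul_le_mul_left _ hi).trans cKτ_le_a)
  have hcong : ∀ z, ∀ n ≤ (s z).c,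
      nrec 0 (fun t w => w + capPow 2 ((s z).K * (s z).τ * t) (C z) *
        (s z).rs (e z) (Z z) (v z) w t) n =
      nrec 0 (fun t w => w + 2 ^ ((s z).K * (s z).τ * t) * (s z).rs (e z) (Z z) (v z) w t) n := by
    intro z n hn
    refine nrec_congr fun i hi r => ?_
    have h2 : capPow 2 ((s z).K * (s z).τ * i) (C z) = 2 ^ ((s z).K * (s z).τ * i) :=
      min_eq_left ((hcap z i (by omega)).trans (Nat.le_succ _))
    rw [h2]
  refine LS.congr (LS.nrec (G := fun _ => 0) (N := fun z => (s z).c)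
    (K := fun z t w => w + capPow 2 ((s z).K * (s z).τ * t) (C z) *
      (s z).rs (e z) (Z z) (v z) w t) (C := C) (LS.const 0) h.c h.bd h1 ?_) ?_
  · intro z i hi
    rw [hcong z i hi]
    exact (blk_part (h.ok z) _ _ _ i).le.trans (hcap z i hi)
  · intro z
    exact (hcong z _ le_rfl).symm

theorem fq (hx : LS x) (he : LS e) (hZ : LS Z) : LS (fun z => (s z).fq (x z) (e z) (Z z)) := by
  have h1 : LS (fun z => x z % 2 ^ (s z).σ) := LS_mod2 h.σ hx
  exact LS.ifz he h1 (LS.ifz (LS.le01 he h.R) h1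
    (lB h (uz h hZ (LS.mul (LS.sub he (LS.const 1)) h.c))))

theorem fg (he : LS e) (hZ : LS Z) (hv : LS v) :
    LS (fun z => (s z).fg (x z) (e z) (Z z) (v z)) := by
  refine LS_mod2 (la h) (LS.ifz he (LS_mod2 h.sg hv) (LS.ifz (LS.le01 he h.R)
    (LS_dig2 (LS.mul h.c (LS.mul h.K h.τ)) (LS_div2 h.sg hv)
      (LS.sub (LS.sub he (LS.const 1)) h.R)) (blk h he hZ hv)))

theorem pc (hZ : LS Z) (hi : LS i) : LS (fun z => (s z).pc (Z z) (i z)) := by
  have h1 : LS (fun z => (s z).c * (s z).K) := LS.mul h.c h.K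
  exact LS_dig2 h.τ (LS_dig2 (la h) hZ (LS.add (LS.add (LS.const 1) h.R) (LS.div hi h1)))
    (LS.mod hi h1)

theorem Jτ_le (z : α) : 2 ^ ((s z).J * (s z).τ) ≤ C z :=
  (Nat.pow_le_pow_right (by norm_num) (Nat.le_add_left _ _)).trans (h.hC2 z)

theorem fo (hx : LS x) (hZ : LS Z) : LS (fun z => (s z).fo (x z) (Z z)) := by
  have hc := comp h (π := fun p : α × ℕ => p.1) LS.fst
  have hx1 : LS (fun p : α × ℕ => x p.1) := LS.comp (g := x) hx LS.fst
  have hZ1 : LS (fun p : α × ℕ => Z p.1) := LS.comp (g := Z) hZ LS.fst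
  have hi1 : LS (fun p : α × ℕ => p.2) := LS.snd
  have hRc : LS (fun z => (s z).R * (s z).c) := LS.mul h.R h.c
  have hRc1 : LS (fun p : α × ℕ => (s p.1).R * (s p.1).c) := LS.mul hc.R hc.c
  exact LS.add (uz h hZ hRc) (LS.mul (psg h) (LS_tab2 (τ := fun z => (s z).τ)
    (K := fun z => (s z).J) (C := C)
    (d := fun z j => (s z).ov (Z z) ((s z).R * (s z).c) ((s z).nb (x z % 2 ^ (s z).σ) j)
      ((s z).pc (Z z) j))
    (ov hc hZ1 hRc1 (lnb hc (LS_mod2 hc.σ hx1) hi1) (pc hc hZ1 hi1)) h.τ h.J h.bd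
    (fun z i _ => ov_lt (h.ok z) (pc_lt _ _)) (Jτ_le h)))

theorem f0 : LS (fun z => (s z).f0) :=
  LS.add h.u0 (LS.mul (psg h) (LS_tab2 (τ := fun z => (s z).τ)
    (K := fun z => (s z).J) (C := C) (d := fun z _ => (s z).M0)
    (LS.comp (g := fun z => (s z).M0) h.M0 LS.fst) h.τ h.J h.bd
    (fun z i _ => (h.ok z).hM0) (Jτ_le h)))

end SLS

/-- **Packet MH-LSS.** -/
theorem lss : LSS_stmt := by
  intro α _ s C E G d h hE hG hd hE0 hG0 hC hS
  have h3 := SLS.comp h (π := fun p : α × ℕ × ℕ × ℕ => p.1) LS.fst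
  have h4 := SLS.comp h (π := fun p : α × ℕ × ℕ × ℕ × ℕ => p.1) LS.fst
  have h2 := SLS.comp h (π := fun p : α × ℕ × ℕ => p.1) LS.fst
  have h1 := SLS.comp h (π := fun p : α × ℕ => p.1) LS.fst
  exact
    { σ := h.σ
      a := SLS.la h
      b := SLS.lb h
      E := hE
      G := hG
      K := hd
      q := SLS.fq h3 (x := fun p => p.2.1) (e := fun p => p.2.2.1) (Z := fun p => p.2.2.2)
        (by fun_prop) (by fun_prop) (by fun_prop)
      g := SLS.fg h4 (x := fun p => p.2.1) (e := fun p => p.2.2.1) (Z := fun p => p.2.2.2.1)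
        (v := fun p => p.2.2.2.2) (by fun_prop) (by fun_prop) (by fun_prop)
      o := SLS.fo h2 (x := fun p => p.2.1) (Z := fun p => p.2.2) (by fun_prop) (by fun_prop)
      t0 := SLS.f0 h1
      root := LS.const 0
      bd := h.bd
      ok := fun z => machOk (h.ok z) (hE0 z) (hG0 z)
      hC := hC
      hS := hS }

end Pool.Agent.Helper46.MH
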